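import Mathlib
import Pool.Agent.Lib.MP_2781e4_lc.Main
import Pool.Agent.Lib.MP_2781e4_lc.Det

/-!
# The optimal exponent for the cost measure `n²` in exact arithmetic is zero

The solver combines a rounded Newton iteration for the inverse of a rounded matrix (whose
integer matrix products take `Õ(n²)` exact arithmetic operations, by packing each row of an
integer matrix into one number), a check of the computed approximate inverse, and iterative
refinement. It is one deterministic program; in the model every instruction is counted.
-/

namespace Pool.Agent.Results.MP_2781e4_lc.ExactArithmeticExponentZero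

open Pool.Agent.Lib.MP_2781e4_lc

/-- Every `p > 0` is achievable with the cost measure `n²`; hence the optimal exponent
`p*(n²)` is `0`. -/
theorem result : (∀ p : ℝ, 0 < p → Achievable p) ∧ sInf {p : ℝ | 0 < p ∧ Achievable p} = 0 := by
  refine ⟨achievable_of_pos, ?_⟩
  have h : {p : ℝ | 0 < p ∧ Achievable p} = Set.Ioi 0 := by
    ext p
    exact ⟨fun h => h.1, fun h => ⟨h, achievable_of_pos p h⟩⟩
  rw [h]
  exact csInf_Ioi

end Pool.Agent.Results.MP_2781e4_lc.ExactArithmeticExponentZero
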